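import Mathlib
import Pool.Agent.Lib.MP_562b47_mp.AL.Reg
import Pool.Agent.Lib.MP_562b47_mp.QL.Fin

/-!
MP_562b47, assembly: the matrix of a finite box of `ℤ^d` and the comparison with the infinite
lattice (deterministic part).
-/

open MeasureTheory Matrix Finset

set_option linter.unusedSectionVars false

namespace Pool.Agent.Lib.MP_562b47_mp.AS

open Pool.Agent.Lib.MP_562b47_mp.AL Pool.Agent.Lib.MP_562b47_mp
open scoped InnerProductSpace

variable {d : ℕ}

/-- the restriction of `-Δ - E` (zero boundary values) to the finite set `B` -/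
noncomputable def AB (E : ℝ) (B : Finset (Fin d → ℤ)) : Matrix B B ℝ :=
  Matrix.of fun x y => (if x = y then 2 * (d : ℝ) - E else 0) -
    ∑ i : Fin d, ((if (y : Fin d → ℤ) = x + uv d i then (1:ℝ) else 0) +
      (if (y : Fin d → ℤ) = x - uv d i then (1:ℝ) else 0))

/-- the coordinates -/
def xi (B : Finset (Fin d → ℤ)) (j : Fin d) (x : B) : ℝ := ((x : Fin d → ℤ) j : ℝ)

theorem AB_symm (E : ℝ) (B : Finset (Fin d → ℤ)) : (AB E B).IsSymm := by
  ext x y
  simp only [AB, transpose_apply, of_apply]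
  have h1 : (if y = x then 2 * (d:ℝ) - E else 0) = if x = y then 2 * (d:ℝ) - E else 0 := by
    by_cases h : x = y
    · rw [if_pos h, if_pos h.symm]
    · rw [if_neg h, if_neg (Ne.symm h)]
  rw [h1]
  congr 1
  refine sum_congr rfl fun i _ => ?_
  have h2 : ((x : Fin d → ℤ) = y + uv d i) ↔ ((y : Fin d → ℤ) = x - uv d i) :=
    ⟨fun h => by rw [h]; abel, fun h => by rw [h]; abel⟩
  have h3 : ((x : Fin d → ℤ) = y - uv d i) ↔ ((y : Fin d → ℤ) = x + uv d i) :=
    ⟨fun h => by rw [h]; abel, fun h => by rw [h]; abel⟩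
  simp only [h2, h3]
  ring

/-- extension by zero -/
noncomputable def ex0 (B : Finset (Fin d → ℤ)) (f : B → ℂ) (x : Fin d → ℤ) : ℂ :=
  if h : x ∈ B then f ⟨x, h⟩ else 0

theorem ex0_coe (B : Finset (Fin d → ℤ)) (f : B → ℂ) (x : B) : ex0 B f x = f x := by
  unfold ex0
  rw [dif_pos x.2]

theorem ex0_notMem {B : Finset (Fin d → ℤ)} (f : B → ℂ) {x : Fin d → ℤ} (h : x ∉ B) :
    ex0 B f x = 0 := by
  unfold ex0
  rw [dif_neg h]

theorem sum_ite_ex0 (B : Finset (Fin d → ℤ)) (f : B → ℂ) (v : Fin d → ℤ) :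
    ∑ y : B, (if (y : Fin d → ℤ) = v then (1:ℂ) else 0) * f y = ex0 B f v := by
  by_cases h : v ∈ B
  · rw [Finset.sum_eq_single (⟨v, h⟩ : B)]
    · rw [if_pos rfl, one_mul]
      unfold ex0; rw [dif_pos h]
    · intro b _ hb
      rw [if_neg (fun h' => hb (Subtype.ext h')), zero_mul]
    · intro h'; exact absurd (mem_univ _) h'
  · rw [ex0_notMem f h]
    refine sum_eq_zero fun y _ => ?_
    rw [if_neg (fun h' => h (by rw [← h']; exact y.2)), zero_mul]

theorem HM_AB_apply (E : ℝ) (B : Finset (Fin d → ℤ)) (u : B → ℂ) (f : B → ℂ) (x : B) :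
    ∑ y, HM (AB E B) u x y * f y = ((2 * (d:ℝ) - E : ℝ) : ℂ) * f x + u x * f x
      - ∑ i : Fin d, (ex0 B f (x + uv d i) + ex0 B f (x - uv d i)) := by
  simp_rw [HM_apply]
  have h1 : ∀ y : B, ((AB E B x y : ℂ) + if x = y then u x else 0) * f y =
      (if x = y then (((2 * (d:ℝ) - E : ℝ) : ℂ) + u x) * f y else 0) -
        ∑ i : Fin d, ((if (y : Fin d → ℤ) = x + uv d i then (1:ℂ) else 0) * f y +
          (if (y : Fin d → ℤ) = x - uv d i then (1:ℂ) else 0) * f y) := by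
    intro y
    simp only [AB, of_apply]
    rw [← sum_congr rfl (fun i _ => add_mul _ _ (f y)), ← sum_mul]
    have e1 : ((∑ i : Fin d, ((if (y : Fin d → ℤ) = x + uv d i then (1:ℝ) else 0) +
        (if (y : Fin d → ℤ) = x - uv d i then (1:ℝ) else 0)) : ℝ) : ℂ) =
        ∑ i : Fin d, ((if (y : Fin d → ℤ) = x + uv d i then (1:ℂ) else 0) +
          (if (y : Fin d → ℤ) = x - uv d i then (1:ℂ) else 0)) := by
      rw [Complex.ofReal_sum]
      refine sum_congr rfl fun i _ => ?_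
      rw [Complex.ofReal_add]
      congr 1 <;> split_ifs <;> simp
    by_cases h : x = y
    · subst h
      rw [if_pos rfl, if_pos rfl, if_pos rfl, Complex.ofReal_sub, e1]
      ring
    · rw [if_neg h, if_neg h, if_neg h, Complex.ofReal_sub, e1]
      push_cast
      ring
  rw [sum_congr rfl fun y _ => h1 y, sum_sub_distrib, Finset.sum_ite_eq, if_pos (mem_univ x)]
  rw [sum_comm]
  congr 1
  · ring
  · refine sum_congr rfl fun i _ => ?_
    rw [sum_add_distrib, sum_ite_ex0, sum_ite_ex0]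

/-- extension by zero as an element of `ℓ²` -/
noncomputable def exL (B : Finset (Fin d → ℤ)) (f : B → ℂ) : Hilb d :=
  ∑ x : B, f x • ee d (x : Fin d → ℤ)

theorem exL_apply (B : Finset (Fin d → ℤ)) (f : B → ℂ) (j : Fin d → ℤ) :
    exL B f j = ex0 B f j := by
  have h0 : exL B f j = ∑ x : B, f x * (if j = (x : Fin d → ℤ) then (1:ℂ) else 0) := by
    unfold exL
    rw [lp.coeFn_sum, Finset.sum_apply]
    refine sum_congr rfl fun x _ => ?_
    rw [lp.coeFn_smul, Pi.smul_apply, smul_eq_mul, ee_eq, eb_apply]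
  rw [h0, ← sum_ite_ex0]
  refine sum_congr rfl fun x _ => ?_
  rw [mul_comm]
  simp only [eq_comm]

/-- the flux out of the box -/
noncomputable def fl (B : Finset (Fin d → ℤ)) (f : B → ℂ) (j : Fin d → ℤ) : ℂ :=
  ∑ i : Fin d, (ex0 B f (j + uv d i) + ex0 B f (j - uv d i))

/-- `W` contains the outer boundary of `B` -/
def Outer (B W : Finset (Fin d → ℤ)) : Prop :=
  Disjoint B W ∧ ∀ j, j ∉ B → j ∉ W → ∀ i, j + uv d i ∉ B ∧ j - uv d i ∉ B

theorem fl_zero {B W : Finset (Fin d → ℤ)} (h : Outer B W) (f : B → ℂ) {j : Fin d → ℤ}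
    (h1 : j ∉ B) (h2 : j ∉ W) : fl B f j = 0 := by
  unfold fl
  refine sum_eq_zero fun i _ => ?_
  rw [ex0_notMem f (h.2 j h1 h2 i).1, ex0_notMem f (h.2 j h1 h2 i).2, add_zero]

/-- the potential of the box -/
noncomputable def uB (c a : ℝ) (B : Finset (Fin d → ℤ)) (ω : (Fin d → ℤ) → ℝ) (x : B) : ℂ :=
  (clp c (ω x) : ℂ) - (a : ℂ) * Complex.I

theorem loss_uB {c a : ℝ} (ha : 0 < a) (B : Finset (Fin d → ℤ)) (ω : (Fin d → ℤ) → ℝ) :
    Loss (uB c a B ω) := by
  intro x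
  unfold uB
  simp [ha]

theorem gam_uB (c a : ℝ) (B : Finset (Fin d → ℤ)) (ω : (Fin d → ℤ) → ℝ) (x : B) :
    gam (uB c a B ω) x = a := by
  unfold gam uB
  simp

theorem H_exL {c a E : ℝ} (ha : 0 < a) {B W : Finset (Fin d → ℤ)} (hW : Outer B W)
    (ω : (Fin d → ℤ) → ℝ) (y : B) :
    HH d c ω (exL B fun x => GM (AB E B) (uB c a B ω) x y)
      - (⟨E, a⟩ : ℂ) • exL B (fun x => GM (AB E B) (uB c a B ω) x y)
      = ee d (y : Fin d → ℤ)
        - ∑ j ∈ W, fl B (fun x => GM (AB E B) (uB c a B ω) x y) j • ee d j := by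
  set f : B → ℂ := fun x => GM (AB E B) (uB c a B ω) x y with hf
  have key : ∀ x : B, ∑ k, HM (AB E B) (uB c a B ω) x k * f k = if x = y then 1 else 0 := by
    intro x
    have := congrFun (congrFun (HM_mul_GM (AB_symm E B) (loss_uB (c := c) ha B ω)) x) y
    rw [mul_apply, one_apply] at this
    exact this
  have hz : (⟨E, a⟩ : ℂ) = (E : ℂ) + (a : ℂ) * Complex.I := by
    apply Complex.ext <;> simp
  ext j
  rw [lp.coeFn_sub, Pi.sub_apply, lp.coeFn_smul, Pi.smul_apply, smul_eq_mul, HH_apply]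
  simp only [exL_apply]
  rw [lp.coeFn_sub, Pi.sub_apply, ee_eq, eb_apply, lp.coeFn_sum, Finset.sum_apply]
  have hsum : ∑ k ∈ W, (fl B f k • eb k : Hilb d) j = if j ∈ W then fl B f j else 0 := by
    have : ∀ k ∈ W, (fl B f k • eb k : Hilb d) j = if j = k then fl B f j else 0 := by
      intro k _
      rw [lp.coeFn_smul, Pi.smul_apply, smul_eq_mul, eb_apply]
      by_cases h : j = k
      · subst h; simp
      · simp [h]
    rw [sum_congr rfl this, Finset.sum_ite_eq]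
  rw [hsum]
  have hlap : -∑ i : Fin d, ((ex0 B f (j + Pi.single i 1) - ex0 B f j)
      + (ex0 B f (j - Pi.single i 1) - ex0 B f j)) = 2 * (d:ℂ) * ex0 B f j - fl B f j := by
    unfold fl uv
    have : ∀ i ∈ (univ : Finset (Fin d)), ((ex0 B f (j + Pi.single i 1) - ex0 B f j)
      + (ex0 B f (j - Pi.single i 1) - ex0 B f j)) =
        (ex0 B f (j + Pi.single i 1) + ex0 B f (j - Pi.single i 1)) - 2 * ex0 B f j :=
      fun i _ => by ring
    rw [sum_congr rfl this, sum_sub_distrib, sum_const, Finset.card_univ, Fintype.card_fin,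
      nsmul_eq_mul]
    ring
  rw [hlap]
  by_cases hj : j ∈ B
  · have hjW : j ∉ W := fun h => (Finset.disjoint_left.mp hW.1) hj h
    rw [if_neg hjW, sub_zero]
    have h1 := key ⟨j, hj⟩
    rw [HM_AB_apply] at h1
    have h2 : ex0 B f j = f ⟨j, hj⟩ := ex0_coe B f ⟨j, hj⟩
    have h3 : uB c a B ω ⟨j, hj⟩ = (clp c (ω j) : ℂ) - (a : ℂ) * Complex.I := rfl
    have h4 : fl B f j = ∑ i : Fin d, (ex0 B f (((⟨j, hj⟩ : B) : Fin d → ℤ) + uv d i)
        + ex0 B f (((⟨j, hj⟩ : B) : Fin d → ℤ) - uv d i)) := rfl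
    rw [h2, h4, hz]
    rw [h3] at h1
    have h5 : (if (⟨j, hj⟩ : B) = y then (1:ℂ) else 0) = if j = (y : Fin d → ℤ) then 1 else 0 := by
      by_cases h : (⟨j, hj⟩ : B) = y
      · rw [if_pos h, if_pos (by rw [← h])]
      · rw [if_neg h, if_neg (fun h' => h (Subtype.ext h'))]
    rw [← h5, ← h1]
    push_cast
    ring
  · have h1 : ex0 B f j = 0 := ex0_notMem f hj
    have h2 : j ≠ (y : Fin d → ℤ) := fun h => hj (by rw [h]; exact y.2)
    rw [h1, if_neg h2]
    by_cases hjW : j ∈ W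
    · rw [if_pos hjW]; ring
    · rw [if_neg hjW, fl_zero hW f hj hjW]; ring

/-- comparison of the Green functions -/
theorem Gr_sub_GM {c a E : ℝ} (hc : 0 < c) (ha : 0 < a) {B W : Finset (Fin d → ℤ)}
    (hW : Outer B W) (ω : (Fin d → ℤ) → ℝ) (x y : B) :
    Gr (ee d) (HH d c) ω ⟨E, a⟩ x y - GM (AB E B) (uB c a B ω) x y
      = ∑ j ∈ W, fl B (fun x => GM (AB E B) (uB c a B ω) x y) j
          * Gr (ee d) (HH d c) ω ⟨E, a⟩ x j := by
  have M := model (d := d) hc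
  have h1 := H_exL (c := c) (E := E) ha hW ω y
  have h2 := congrArg (Rv (HH d c ω) ⟨E, a⟩) h1
  rw [map_sub, map_smul, Rv_H_apply (M.sa ω) (by simpa using ha.ne'), map_sub, map_sum] at h2
  have h3 := congrArg (fun v => ⟪ee d (x : Fin d → ℤ), v⟫_ℂ) h2
  simp only [inner_sub_right, inner_add_right, inner_smul_right, inner_sum, map_smul] at h3
  have h4 : ⟪ee d (x : Fin d → ℤ), exL B fun x => GM (AB E B) (uB c a B ω) x y⟫_ℂ =
      GM (AB E B) (uB c a B ω) x y := by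
    rw [ee_eq, inner_eb, exL_apply, ex0_coe]
  rw [h4] at h3
  unfold Gr
  linear_combination -h3

theorem sum_GM_sq {a E c : ℝ} (ha : 0 < a) (B : Finset (Fin d → ℤ)) (ω : (Fin d → ℤ) → ℝ) (x : B) :
    ∑ y, ‖GM (AB E B) (uB c a B ω) x y‖ ^ 2 ≤ 1 / a ^ 2 := by
  have hA := AB_symm E B
  have hu := loss_uB (c := c) ha B ω
  have h1 := (ward hA hu).im_diag x
  have h2 : ∑ k, gam (uB c a B ω) k * ‖GM (AB E B) (uB c a B ω) k x‖ ^ 2
      = a * ∑ y, ‖GM (AB E B) (uB c a B ω) x y‖ ^ 2 := by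
    rw [mul_sum]
    refine sum_congr rfl fun k _ => ?_
    rw [gam_uB, GM_symm hA]
  rw [h2] at h1
  have h3 := entry_le hA hu x x
  rw [gam_uB, ← sq, ← mul_pow] at h3
  have h4 : a * ‖GM (AB E B) (uB c a B ω) x x‖ ≤ 1 := by
    have := abs_le_of_sq_le_sq' (by simpa using h3 : (a * ‖GM (AB E B) (uB c a B ω) x x‖) ^ 2 ≤ 1 ^ 2)
      zero_le_one
    exact this.2
  have h5 := Complex.im_le_norm (GM (AB E B) (uB c a B ω) x x)
  rw [le_div_iff₀ (by positivity)]
  nlinarith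

theorem sum_Gr_sq {c a E : ℝ} (hc : 0 < c) (ha : 0 < a) (ω : (Fin d → ℤ) → ℝ)
    (F : Finset (Fin d → ℤ)) (j : Fin d → ℤ) :
    ∑ x ∈ F, ‖Gr (ee d) (HH d c) ω ⟨E, a⟩ x j‖ ^ 2 ≤ 1 / a ^ 2 := by
  have M := model (d := d) hc
  have h1 := M.ortho.sum_inner_products_le (x := Rv (HH d c ω) ⟨E, a⟩ (ee d j)) (s := F)
  have h2 := norm_Rv_le (M.sa ω) (z := ⟨E, a⟩) (by simpa using ha.ne') (ee d j)
  rw [M.ortho.1 j] at h2
  have h3 : |(⟨E, a⟩ : ℂ).im| = a := abs_of_pos ha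
  rw [h3] at h2
  have h4 : ‖Rv (HH d c ω) ⟨E, a⟩ (ee d j)‖ ^ 2 ≤ 1 / a ^ 2 := by
    rw [le_div_iff₀ (by positivity), ← mul_pow, mul_comm]
    exact pow_le_one₀ (by positivity) h2
  exact le_trans h1 h4

end Pool.Agent.Lib.MP_562b47_mp.AS
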