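import Mathlib
import Pool.Agent.Lib.MP_562b47_mp.WindowB
import Pool.Agent.Lib.MP_562b47_mp.QL.Fin
import Pool.Agent.Lib.MP_562b47_mp.BX.Lim

/-!
MP_562b47, `d = 2`, end of the assembly: local diffusive bounds at all energies of `(-c, 8 + c)` imply
that the Anderson operator is almost surely purely singular.
-/

open MeasureTheory Set Filter Topology Complex
open scoped Real ENNReal NNReal InnerProductSpace

set_option linter.unusedSectionVars false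

namespace Pool.Agent.Lib.MP_562b47_mp.ASF

open Pool.Agent.Lib.MP_562b47_mp.QP Pool.Agent.Lib.MP_562b47_mp.QL

variable {d : ℕ}

theorem ofReal_sq_re (r : ℝ) : (((r : ℝ) : ℂ) ^ 2).re = r ^ 2 := by
  rw [← Complex.ofReal_pow, Complex.ofReal_re]

section gen

variable {E : Type*} [NormedAddCommGroup E] [InnerProductSpace ℂ E] [CompleteSpace E]

/-- a self-adjoint operator with numerical range in `[m, M]` has its spectrum there -/
theorem spectrum_sub {H : E →L[ℂ] E} (hH : IsSelfAdjoint H) {m M : ℝ}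
    (hm : ∀ u, m * ‖u‖ ^ 2 ≤ (⟪u, H u⟫_ℂ).re) (hM : ∀ u, (⟪u, H u⟫_ℂ).re ≤ M * ‖u‖ ^ 2) :
    spectrum ℝ H ⊆ Icc m M := by
  have hal : ∀ r : ℝ, ∀ u : E, (algebraMap ℝ (E →L[ℂ] E) r) u = (r : ℂ) • u := by
    intro r u
    rw [Algebra.algebraMap_eq_smul_one]
    simp
  have hsa : ∀ r : ℝ, IsSelfAdjoint (algebraMap ℝ (E →L[ℂ] E) r) := fun r =>
    IsSelfAdjoint.algebraMap _ (IsSelfAdjoint.all r)
  have hin : ∀ (r : ℝ) (u : E), (⟪u, (r : ℂ) • u⟫_ℂ).re = r * ‖u‖ ^ 2 := by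
    intro r u
    rw [inner_smul_right, inner_self_eq_norm_sq_to_K, Complex.re_ofReal_mul]
    congr 1
    exact ofReal_sq_re _
  have hlow : algebraMap ℝ (E →L[ℂ] E) m ≤ H := by
    rw [ContinuousLinearMap.le_def, ContinuousLinearMap.isPositive_def']
    refine ⟨hH.sub (hsa m), fun u => ?_⟩
    rw [ContinuousLinearMap.reApplyInnerSelf_apply, inner_re_symm]
    rw [_root_.sub_apply, hal, inner_sub_right, map_sub]
    have h1 := hm u
    have h2 := hin m u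
    have h3 : RCLike.re ⟪u, H u⟫_ℂ = (⟪u, H u⟫_ℂ).re := rfl
    have h4 : RCLike.re ⟪u, (m : ℂ) • u⟫_ℂ = (⟪u, (m : ℂ) • u⟫_ℂ).re := rfl
    rw [h3, h4, h2]
    linarith
  have hup : H ≤ algebraMap ℝ (E →L[ℂ] E) M := by
    rw [ContinuousLinearMap.le_def, ContinuousLinearMap.isPositive_def']
    refine ⟨(hsa M).sub hH, fun u => ?_⟩
    rw [ContinuousLinearMap.reApplyInnerSelf_apply, inner_re_symm]
    rw [_root_.sub_apply, hal, inner_sub_right, map_sub]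
    have h1 := hM u
    have h2 := hin M u
    have h3 : RCLike.re ⟪u, H u⟫_ℂ = (⟪u, H u⟫_ℂ).re := rfl
    have h4 : RCLike.re ⟪u, (M : ℂ) • u⟫_ℂ = (⟪u, (M : ℂ) • u⟫_ℂ).re := rfl
    rw [h3, h4, h2]
    linarith
  intro x hx
  exact ⟨(algebraMap_le_iff_le_spectrum hH).mp hlow x hx,
    (le_algebraMap_iff_spectrum_le hH).mp hup x hx⟩

/-- the spectral measure does not charge the complement of an interval containing the spectrum -/
theorem spec_compl {H : E →L[ℂ] E} {u : E} {μ : Measure ℝ} [IsFiniteMeasure μ]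
    (hs : IsSpec H u μ) {m M : ℝ} (hmM : m ≤ M) (hsp : spectrum ℝ H ⊆ Icc m M) :
    μ (Icc m M)ᶜ = 0 := by
  let f : BoundedContinuousFunction ℝ ℝ := BoundedContinuousFunction.mkOfBound
    ⟨fun x => min 1 (Metric.infDist x (Icc m M)),
      continuous_const.min (Metric.continuous_infDist_pt _)⟩ 2 (fun x y => by
      have h1 : ∀ x : ℝ, 0 ≤ min 1 (Metric.infDist x (Icc m M)) := fun x =>
        le_min zero_le_one Metric.infDist_nonneg
      have h2 : ∀ x : ℝ, min 1 (Metric.infDist x (Icc m M)) ≤ 1 := fun x => min_le_left _ _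
      rw [Real.dist_eq, abs_le]
      constructor <;> simp only [ContinuousMap.coe_mk] <;> linarith [h1 x, h1 y, h2 x, h2 y])
  have hf : ∀ x, f x = min 1 (Metric.infDist x (Icc m M)) := fun x => rfl
  have hf0 : ∀ x, 0 ≤ f x := fun x => by
    rw [hf]; exact le_min zero_le_one Metric.infDist_nonneg
  have h1 := hs f
  have h2 : cfc (⇑f) H = 0 := by
    have : cfc (⇑f) H = cfc (fun _ => (0 : ℝ)) H := by
      refine cfc_congr fun x hx => ?_
      rw [hf, Metric.infDist_zero_of_mem (hsp hx)]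
      simp
    rw [this, cfc_const_zero]
  rw [h2] at h1
  have h3 : ∫ x, f x ∂μ = 0 := by
    have : ((∫ x, f x ∂μ : ℝ) : ℂ) = 0 := by rw [h1]; simp
    exact_mod_cast this
  rw [integral_eq_zero_iff_of_nonneg hf0 (f.integrable μ)] at h3
  have h4 : ∀ᵐ x ∂μ, x ∈ Icc m M := by
    filter_upwards [h3] with x hx
    have hx' : min 1 (Metric.infDist x (Icc m M)) = 0 := hx
    have h5 : Metric.infDist x (Icc m M) = 0 := by
      rcases min_choice 1 (Metric.infDist x (Icc m M)) with h | h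
      · rw [h] at hx'; norm_num at hx'
      · rw [← h]; exact hx'
    exact (isClosed_Icc.mem_iff_infDist_zero (nonempty_Icc.mpr hmM)).mpr h5
  exact h4

end gen

theorem re_permL_le {Λ : Type*} (σ : Equiv.Perm Λ) (u : L2 Λ) :
    |(⟪u, permL σ u⟫_ℂ).re| ≤ ‖u‖ ^ 2 := by
  refine (Complex.abs_re_le_norm _).trans ((norm_inner_le_norm _ _).trans ?_)
  rw [norm_permL, sq]

theorem re_potL_le {Λ : Type*} {c : ℝ} (hc : 0 < c) (ω : Λ → ℝ) (u : L2 Λ) :
    |(⟪u, potL c ω u⟫_ℂ).re| ≤ c * ‖u‖ ^ 2 := by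
  refine (Complex.abs_re_le_norm _).trans ((norm_inner_le_norm _ _).trans ?_)
  have h1 : ‖potL c ω u‖ ≤ |c| * ‖u‖ := by
    refine (ContinuousLinearMap.le_opNorm _ _).trans ?_
    refine mul_le_mul_of_nonneg_right ?_ (norm_nonneg _)
    exact LinearMap.mkContinuous_norm_le _ (abs_nonneg c) _
  rw [abs_of_pos hc] at h1
  calc ‖u‖ * ‖potL c ω u‖ ≤ ‖u‖ * (c * ‖u‖) := mul_le_mul_of_nonneg_left h1 (norm_nonneg _)
    _ = c * ‖u‖ ^ 2 := by ring

theorem re_lapL (u : L2 (Fin d → ℤ)) :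
    0 ≤ (⟪u, lapL d u⟫_ℂ).re ∧ (⟪u, lapL d u⟫_ℂ).re ≤ 4 * d * ‖u‖ ^ 2 := by
  have h1 : (⟪u, lapL d u⟫_ℂ).re = ∑ i : Fin d, (2 * ‖u‖ ^ 2
      - (⟪u, permL (Equiv.addRight (uv d i)) u⟫_ℂ).re
      - (⟪u, permL (Equiv.addRight (-(uv d i))) u⟫_ℂ).re) := by
    unfold lapL
    rw [ContinuousLinearMap.sum_apply, inner_sum, Complex.re_sum]
    refine Finset.sum_congr rfl fun i _ => ?_
    simp only [ContinuousLinearMap.sub_apply, ContinuousLinearMap.smul_apply,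
      ContinuousLinearMap.id_apply, inner_sub_right, inner_smul_right, Complex.sub_re]
    rw [inner_self_eq_norm_sq_to_K]
    have : ((2:ℂ) * (((‖u‖ : ℝ) : ℂ)) ^ 2).re = 2 * ‖u‖ ^ 2 := by
      rw [show (2:ℂ) = ((2:ℝ):ℂ) by norm_num, Complex.re_ofReal_mul, ofReal_sq_re]
    rw [← this]
    rfl
  rw [h1]
  have h2 : ∀ i : Fin d, 0 ≤ 2 * ‖u‖ ^ 2 - (⟪u, permL (Equiv.addRight (uv d i)) u⟫_ℂ).re
      - (⟪u, permL (Equiv.addRight (-(uv d i))) u⟫_ℂ).re := fun i => by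
    have a1 := abs_le.mp (re_permL_le (Equiv.addRight (uv d i)) u)
    have a2 := abs_le.mp (re_permL_le (Equiv.addRight (-(uv d i))) u)
    linarith [a1.2, a2.2]
  have h3 : ∀ i : Fin d, 2 * ‖u‖ ^ 2 - (⟪u, permL (Equiv.addRight (uv d i)) u⟫_ℂ).re
      - (⟪u, permL (Equiv.addRight (-(uv d i))) u⟫_ℂ).re ≤ 4 * ‖u‖ ^ 2 := fun i => by
    have a1 := abs_le.mp (re_permL_le (Equiv.addRight (uv d i)) u)
    have a2 := abs_le.mp (re_permL_le (Equiv.addRight (-(uv d i))) u)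
    linarith [a1.1, a2.1]
  refine ⟨Finset.sum_nonneg fun i _ => h2 i, ?_⟩
  calc _ ≤ ∑ _i : Fin d, 4 * ‖u‖ ^ 2 := Finset.sum_le_sum fun i _ => h3 i
    _ = 4 * d * ‖u‖ ^ 2 := by
      rw [Finset.sum_const, Finset.card_univ, Fintype.card_fin, nsmul_eq_mul]; ring

/-- the spectrum of the Anderson operator is contained in `[-c, 4 d + c]` -/
theorem spectrum_HH {c : ℝ} (hc : 0 < c) (ω : (Fin d → ℤ) → ℝ) :
    spectrum ℝ (HH d c ω) ⊆ Icc (-c) (4 * d + c) := by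
  have hsa : IsSelfAdjoint (HH d c ω) := (model (d := d) hc).sa ω
  have hre : ∀ u : Hilb d, (⟪u, HH d c ω u⟫_ℂ).re
      = (⟪u, lapL d u⟫_ℂ).re + (⟪u, potL c ω u⟫_ℂ).re := fun u => by
    unfold HH
    rw [_root_.add_apply, inner_add_right, Complex.add_re]
  refine spectrum_sub hsa (fun u => ?_) (fun u => ?_)
  · rw [hre]
    have h1 := (re_lapL u).1
    have h2 := (abs_le.mp (re_potL_le hc ω u)).1
    linarith
  · rw [hre]
    have h1 := (re_lapL u).2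
    have h2 := (abs_le.mp (re_potL_le hc ω u)).2
    linarith

/-- no absolutely continuous spectrum on a null set of the measure -/
theorem noAC_of_null {μ : Measure ℝ} {S : Set ℝ} (h : μ S = 0) : NoAC μ S := by
  have h1 : ∫⁻ x in S, μ.rnDeriv volume x ∂volume = 0 := by
    refine le_antisymm ?_ bot_le
    rw [← h]
    exact Measure.setLIntegral_rnDeriv_le S
  rw [lintegral_eq_zero_iff (Measure.measurable_rnDeriv μ volume)] at h1
  unfold NoAC Dens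
  filter_upwards [h1] with x hx
  rw [hx]
  simp

/-- the energies outside `[-c, 4 d + c]` -/
theorem noAC_out {c : ℝ} (hc : 0 < c) (ω : (Fin d → ℤ) → ℝ) (μ : Measure ℝ)
    (hμ : IsFiniteMeasure μ) (hs : IsSpec (HH d c ω) (ee d 0) μ) :
    NoAC μ (Icc (-c) (4 * d + c))ᶜ := by
  refine noAC_of_null ?_
  refine spec_compl hs ?_ (spectrum_HH hc ω)
  have : (0 : ℝ) ≤ d := Nat.cast_nonneg d
  linarith

/-- **Assembly**: local diffusive bounds at all energies of `(-c, 8 + c)`. -/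
theorem sing_of_local {c : ℝ} (hc : 0 < c)
    (h : ∀ Es ∈ Ioo (-c) (8 + c), ∃ δ C a₀ : ℝ, 0 < δ ∧ 0 < a₀ ∧ ∀ E : ℝ, |E - Es| < δ →
      ∀ a : ℝ, 0 < a → a < a₀ → DE 2 c ⟨E, a⟩ ≤ ENNReal.ofReal (C / a ^ 2)) :
    ∀ᵐ ω ∂(PP (Fin 2 → ℤ) c), ∀ μ : Measure ℝ, IsFiniteMeasure μ →
      IsSpec (HH 2 c ω) (ee 2 0) μ → μ ⟂ₘ volume := by
  choose! δ C a₀ hδ ha₀ hb using h
  obtain ⟨t, ht, htc, hcov⟩ := TopologicalSpace.countable_cover_nhdsWithin
    (s := Ioo (-c) (8 + c)) (f := fun Es => Metric.ball Es (δ Es))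
    (fun Es hEs => mem_nhdsWithin_of_mem_nhds (Metric.ball_mem_nhds Es (hδ Es hEs)))
  have h1 : ∀ Es ∈ t, ∀ᵐ ω ∂(PP (Fin 2 → ℤ) c), ∀ μ : Measure ℝ, IsFiniteMeasure μ →
      IsSpec (HH 2 c ω) (ee 2 0) μ → NoAC μ (Metric.ball Es (δ Es)) := by
    intro Es hEs
    have hEs' := ht hEs
    refine local_sing hc Metric.isOpen_ball.measurableSet (C := max (C Es) 0)
      (η₁ := min (a₀ Es) 1) (lt_min (ha₀ Es hEs') one_pos) fun E hE η hη hη1 => ?_
    refine (hb Es hEs' E (by rwa [Metric.mem_ball, Real.dist_eq] at hE) η hη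
      (hη1.trans_le (min_le_left _ _))).trans (ENNReal.ofReal_le_ofReal ?_)
    have hlog : 0 ≤ Real.log (1 / η) := by
      apply Real.log_nonneg
      rw [le_div_iff₀ hη, one_mul]
      exact hη1.le.trans (min_le_right _ _)
    apply div_le_div_of_nonneg_right _ (by positivity)
    have h2 : (0 : ℝ) ≤ max (C Es) 0 := le_max_right _ _
    have h3 := le_max_left (C Es) 0
    nlinarith
  have h2 := (ae_ball_iff htc).mpr h1
  filter_upwards [h2] with ω hω μ hμ hs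
  have h3 : ∀ᵐ x ∂(volume : Measure ℝ), ∀ Es ∈ t, x ∈ Metric.ball Es (δ Es) → Dens μ x = 0 := by
    rw [ae_ball_iff htc]
    intro Es hEs
    exact (ae_restrict_iff' Metric.isOpen_ball.measurableSet).mp (hω Es hEs μ hμ hs)
  have h4 : ∀ᵐ x ∂(volume : Measure ℝ), x ∈ (Icc (-c) (4 * (2 : ℕ) + c))ᶜ → Dens μ x = 0 :=
    (ae_restrict_iff' measurableSet_Icc.compl).mp (noAC_out hc ω μ hμ hs)
  have h5 : ∀ᵐ x ∂(volume : Measure ℝ), x ≠ -c ∧ x ≠ 8 + c := by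
    exact (Measure.ae_ne volume (-c)).and (Measure.ae_ne volume (8 + c))
  rw [← Measure.rnDeriv_eq_zero]
  filter_upwards [h3, h4, h5, Measure.rnDeriv_lt_top μ volume] with x hx hx2 hx3 hx4
  have h6 : Dens μ x = 0 := by
    by_cases hxI : x ∈ Icc (-c) (4 * (2 : ℕ) + c)
    · have h7 : x ∈ Ioo (-c) (8 + c) := by
        obtain ⟨a1, a2⟩ := hxI
        push_cast at a2
        refine ⟨lt_of_le_of_ne a1 (Ne.symm hx3.1), lt_of_le_of_ne (by linarith) hx3.2⟩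
      obtain ⟨Es, hEs, hxE⟩ := mem_iUnion₂.mp (hcov h7)
      exact hx Es hEs hxE
    · exact hx2 hxI
  unfold Dens at h6
  have h8 := (mul_eq_zero.mp h6).resolve_left Real.pi_ne_zero
  rcases (ENNReal.toReal_eq_zero_iff _).mp h8 with h | h
  · exact h
  · exact absurd h hx4.ne

/-- box bounds imply local diffusive bounds -/
theorem local_of_box {c : ℝ} (hc : 0 < c)
    (h : ∀ Es ∈ Ioo (-c) (8 + c), ∃ δ C a₀ : ℝ, 0 < δ ∧ 0 < a₀ ∧ ∀ E : ℝ, |E - Es| < δ →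
      ∀ a : ℝ, 0 < a → a < a₀ → ∃ n₀ : ℕ, ∀ n ≥ n₀,
        ∫ V, AL.DU (BX.Ab E n) (BX.xb n) (fun x => ((V x : ℝ) : ℂ) - a * Complex.I)
          ∂(Measure.pi fun _ : Fin n × Fin n => unif c) ≤ C * (n : ℝ) ^ 2) :
    ∀ Es ∈ Ioo (-c) (8 + c), ∃ δ C a₀ : ℝ, 0 < δ ∧ 0 < a₀ ∧ ∀ E : ℝ, |E - Es| < δ →
      ∀ a : ℝ, 0 < a → a < a₀ → DE 2 c ⟨E, a⟩ ≤ ENNReal.ofReal (C / a ^ 2) := by
  intro Es hEs
  obtain ⟨δ, C, a₀, hδ, ha₀, hb⟩ := h Es hEs
  refine ⟨δ, max C 0, a₀, hδ, ha₀, fun E hE a ha haa => ?_⟩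
  obtain ⟨n₀, hn⟩ := hb E hE a ha haa
  refine BX.lim_box hc ha (le_max_right _ _) (n₀ := n₀) fun n hn' => (hn n hn').trans ?_
  exact mul_le_mul_of_nonneg_right (le_max_left _ _) (by positivity)

/-- the same for the operator on an arbitrary Hilbert space with basis `b j`, all vectors -/
theorem sing_HB_of_local {c : ℝ} (hc : 0 < c) {V : Type*} [NormedAddCommGroup V]
    [InnerProductSpace ℂ V] [CompleteSpace V] (b : HilbertBasis (Fin 2 → ℤ) ℂ V)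
    (h : ∀ Es ∈ Ioo (-c) (8 + c), ∃ δ C a₀ : ℝ, 0 < δ ∧ 0 < a₀ ∧ ∀ E : ℝ, |E - Es| < δ →
      ∀ a : ℝ, 0 < a → a < a₀ → DE 2 c ⟨E, a⟩ ≤ ENNReal.ofReal (C / a ^ 2)) :
    ∀ᵐ ω ∂(PP (Fin 2 → ℤ) c), ∀ (u : V) (μ : Measure ℝ), IsFiniteMeasure μ →
      IsSpec (HB b c ω) u μ → μ ⟂ₘ volume :=
  singular_HB b hc (sing_of_local hc h)

end Pool.Agent.Lib.MP_562b47_mp.ASF
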