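import Mathlib
import Pool.Agent.Lib.MP_562b47_mp.AS.Box

/-!
MP_562b47, assembly: from the boxes to the infinite lattice.
-/

open MeasureTheory Matrix Finset

set_option linter.unusedSectionVars false

namespace Pool.Agent.Lib.MP_562b47_mp.AS

open Pool.Agent.Lib.MP_562b47_mp.AL Pool.Agent.Lib.MP_562b47_mp
open scoped InnerProductSpace ENNReal

variable {d : ℕ}

/-- the Green function of the box, extended by zero -/
noncomputable def GB (E c a : ℝ) (B : Finset (Fin d → ℤ)) (ω : (Fin d → ℤ) → ℝ)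
    (x y : Fin d → ℤ) : ℂ :=
  if h : y ∈ B then ex0 B (fun x' => GM (AB E B) (uB c a B ω) x' ⟨y, h⟩) x else 0

theorem GB_coe (E c a : ℝ) (B : Finset (Fin d → ℤ)) (ω : (Fin d → ℤ) → ℝ) (x y : B) :
    GB E c a B ω x y = GM (AB E B) (uB c a B ω) x y := by
  unfold GB
  rw [dif_pos y.2, ex0_coe]

theorem GB_left {E c a : ℝ} {B : Finset (Fin d → ℤ)} (ω : (Fin d → ℤ) → ℝ)
    {x : Fin d → ℤ} (hx : x ∉ B) (y : Fin d → ℤ) : GB E c a B ω x y = 0 := by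
  unfold GB
  split_ifs with h
  · exact ex0_notMem _ hx
  · rfl

theorem GB_right {E c a : ℝ} {B : Finset (Fin d → ℤ)} (ω : (Fin d → ℤ) → ℝ)
    (x : Fin d → ℤ) {y : Fin d → ℤ} (hy : y ∉ B) : GB E c a B ω x y = 0 := by
  unfold GB
  rw [dif_neg hy]

theorem sum_GB_sq {E c a : ℝ} (ha : 0 < a) (B : Finset (Fin d → ℤ)) (ω : (Fin d → ℤ) → ℝ)
    (x : Fin d → ℤ) (F : Finset (Fin d → ℤ)) :
    ∑ y ∈ F, ‖GB E c a B ω x y‖ ^ 2 ≤ 1 / a ^ 2 := by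
  by_cases hx : x ∈ B
  · have h1 : ∑ y ∈ F, ‖GB E c a B ω x y‖ ^ 2 = ∑ y ∈ F ∩ B, ‖GB E c a B ω x y‖ ^ 2 := by
      symm
      apply sum_subset inter_subset_left
      intro y hy hy'
      rw [GB_right ω x (fun h => hy' (mem_inter.mpr ⟨hy, h⟩))]
      simp
    rw [h1]
    have h2 : ∑ y ∈ F ∩ B, ‖GB E c a B ω x y‖ ^ 2 ≤ ∑ y ∈ B, ‖GB E c a B ω x y‖ ^ 2 :=
      sum_le_sum_of_subset_of_nonneg inter_subset_right fun _ _ _ => by positivity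
    refine h2.trans ?_
    rw [← Finset.sum_coe_sort B (fun y => ‖GB E c a B ω x y‖ ^ 2)]
    have h3 := sum_GM_sq (E := E) (c := c) ha B ω ⟨x, hx⟩
    refine le_trans (le_of_eq ?_) h3
    refine sum_congr rfl fun y _ => ?_
    rw [← GB_coe]
  · rw [sum_eq_zero fun y _ => by rw [GB_left ω hx]; simp]
    positivity

theorem norm_le_of_sq {a : ℝ} (ha : 0 < a) {w : ℂ} (h : ‖w‖ ^ 2 ≤ 1 / a ^ 2) : ‖w‖ ≤ 1 / a := by
  have h1 : (1 / a) ^ 2 = 1 / a ^ 2 := by rw [div_pow, one_pow]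
  rw [← h1] at h
  exact (abs_le_of_sq_le_sq' h (by positivity)).2

theorem norm_GB_le {E c a : ℝ} (ha : 0 < a) (B : Finset (Fin d → ℤ)) (ω : (Fin d → ℤ) → ℝ)
    (x y : Fin d → ℤ) : ‖GB E c a B ω x y‖ ≤ 1 / a := by
  apply norm_le_of_sq ha
  have := sum_GB_sq (E := E) (c := c) ha B ω x {y}
  simpa using this

theorem diff_le {c a E : ℝ} (hc : 0 < c) (ha : 0 < a) {B W : Finset (Fin d → ℤ)}
    (hW : Outer B W) (ω : (Fin d → ℤ) → ℝ) {x y : Fin d → ℤ} (hx : x ∈ B) (hy : y ∈ B) :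
    ‖Gr (ee d) (HH d c) ω ⟨E, a⟩ x y - GB E c a B ω x y‖ ≤
      ∑ j ∈ W, ∑ i : Fin d, ((‖GB E c a B ω (j + uv d i) y‖ ^ 2 +
          ‖GB E c a B ω (j - uv d i) y‖ ^ 2) / 2 + ‖Gr (ee d) (HH d c) ω ⟨E, a⟩ x j‖ ^ 2) := by
  have h1 := Gr_sub_GM (c := c) (E := E) hc ha hW ω ⟨x, hx⟩ ⟨y, hy⟩
  rw [← GB_coe] at h1
  change Gr (ee d) (HH d c) ω ⟨E, a⟩ x y - GB E c a B ω x y = _ at h1
  rw [h1]
  refine (norm_sum_le _ _).trans (sum_le_sum fun j _ => ?_)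
  rw [norm_mul]
  have h2 : fl B (fun x => GM (AB E B) (uB c a B ω) x ⟨y, hy⟩) j
      = ∑ i : Fin d, (GB E c a B ω (j + uv d i) y + GB E c a B ω (j - uv d i) y) := by
    unfold fl
    refine sum_congr rfl fun i _ => ?_
    unfold GB
    rw [dif_pos hy, dif_pos hy]
  rw [h2]
  set g := ‖Gr (ee d) (HH d c) ω ⟨E, a⟩ x j‖ with hg
  have hg0 : 0 ≤ g := norm_nonneg _
  calc ‖∑ i : Fin d, (GB E c a B ω (j + uv d i) y + GB E c a B ω (j - uv d i) y)‖ * g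
      ≤ (∑ i : Fin d, (‖GB E c a B ω (j + uv d i) y‖ + ‖GB E c a B ω (j - uv d i) y‖)) * g := by
        gcongr
        exact (norm_sum_le _ _).trans (sum_le_sum fun i _ => norm_add_le _ _)
    _ = ∑ i : Fin d, (‖GB E c a B ω (j + uv d i) y‖ + ‖GB E c a B ω (j - uv d i) y‖) * g := by
        rw [sum_mul]
    _ ≤ _ := by
        refine sum_le_sum fun i _ => ?_
        nlinarith [sq_nonneg (‖GB E c a B ω (j + uv d i) y‖ - g),
          sq_nonneg (‖GB E c a B ω (j - uv d i) y‖ - g)]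

/-- the averaged difference -/
theorem sum_diff_le {c a E : ℝ} (hc : 0 < c) (ha : 0 < a) {B W S : Finset (Fin d → ℤ)}
    (hW : Outer B W) (ω : (Fin d → ℤ) → ℝ) (k : Fin d → ℤ) (hS : ∀ x ∈ S, x ∈ B ∧ x + k ∈ B) :
    ∑ x ∈ S, ‖Gr (ee d) (HH d c) ω ⟨E, a⟩ x (x + k) - GB E c a B ω x (x + k)‖ ≤
      W.card * (d * (2 / a ^ 2)) := by
  have h1 : ∑ x ∈ S, ‖Gr (ee d) (HH d c) ω ⟨E, a⟩ x (x + k) - GB E c a B ω x (x + k)‖ ≤
      ∑ x ∈ S, ∑ j ∈ W, ∑ i : Fin d, ((‖GB E c a B ω (j + uv d i) (x + k)‖ ^ 2 +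
          ‖GB E c a B ω (j - uv d i) (x + k)‖ ^ 2) / 2
            + ‖Gr (ee d) (HH d c) ω ⟨E, a⟩ x j‖ ^ 2) :=
    sum_le_sum fun x hx => diff_le hc ha hW ω (hS x hx).1 (hS x hx).2
  refine h1.trans ?_
  rw [sum_comm]
  have h2 : ∀ j ∈ W, ∑ x ∈ S, ∑ i : Fin d, ((‖GB E c a B ω (j + uv d i) (x + k)‖ ^ 2 +
          ‖GB E c a B ω (j - uv d i) (x + k)‖ ^ 2) / 2
            + ‖Gr (ee d) (HH d c) ω ⟨E, a⟩ x j‖ ^ 2) ≤ d * (2 / a ^ 2) := by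
    intro j _
    rw [sum_comm]
    have h3 : ∀ i ∈ (univ : Finset (Fin d)), ∑ x ∈ S, ((‖GB E c a B ω (j + uv d i) (x + k)‖ ^ 2 +
          ‖GB E c a B ω (j - uv d i) (x + k)‖ ^ 2) / 2
            + ‖Gr (ee d) (HH d c) ω ⟨E, a⟩ x j‖ ^ 2) ≤ 2 / a ^ 2 := by
      intro i _
      rw [sum_add_distrib, ← sum_div, sum_add_distrib]
      have hshift : ∀ w : Fin d → ℤ, ∑ x ∈ S, ‖GB E c a B ω w (x + k)‖ ^ 2 ≤ 1 / a ^ 2 := by
        intro w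
        have := sum_GB_sq (E := E) (c := c) ha B ω w (S.map (Equiv.addRight k).toEmbedding)
        rw [sum_map] at this
        exact this
      have e1 := hshift (j + uv d i)
      have e2 := hshift (j - uv d i)
      have e3 := sum_Gr_sq (E := E) hc ha ω S j
      have e4 : 2 / a ^ 2 = (1 / a ^ 2 + 1 / a ^ 2) / 2 + 1 / a ^ 2 := by ring
      rw [e4]
      gcongr
    calc _ ≤ ∑ i : Fin d, 2 / a ^ 2 := sum_le_sum h3
      _ = d * (2 / a ^ 2) := by rw [sum_const, Finset.card_univ, Fintype.card_fin, nsmul_eq_mul]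
  calc _ ≤ ∑ j ∈ W, (d * (2 / a ^ 2) : ℝ) := sum_le_sum h2
    _ = _ := by rw [sum_const, nsmul_eq_mul]

theorem norm_Gr_le' {c a E : ℝ} (hc : 0 < c) (ha : 0 < a) (ω : (Fin d → ℤ) → ℝ)
    (x y : Fin d → ℤ) : ‖Gr (ee d) (HH d c) ω ⟨E, a⟩ x y‖ ≤ 1 / a :=
  (model (d := d) hc).norm_Gr_le ω (z := ⟨E, a⟩) ha x y

theorem sum_sq_le {c a E : ℝ} (hc : 0 < c) (ha : 0 < a) {B W S : Finset (Fin d → ℤ)}
    (hW : Outer B W) (ω : (Fin d → ℤ) → ℝ) (k : Fin d → ℤ) (hS : ∀ x ∈ S, x ∈ B ∧ x + k ∈ B) :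
    ∑ x ∈ S, ‖Gr (ee d) (HH d c) ω ⟨E, a⟩ x (x + k)‖ ^ 2 ≤
      ∑ x ∈ S, ‖GB E c a B ω x (x + k)‖ ^ 2 + W.card * (4 * d / a ^ 3) := by
  have h1 := sum_diff_le (E := E) hc ha hW ω k hS
  have h2 : ∀ x ∈ S, ‖Gr (ee d) (HH d c) ω ⟨E, a⟩ x (x + k)‖ ^ 2 ≤
      ‖GB E c a B ω x (x + k)‖ ^ 2 +
        (2 / a) * ‖Gr (ee d) (HH d c) ω ⟨E, a⟩ x (x + k) - GB E c a B ω x (x + k)‖ := by
    intro x _
    have e1 := norm_Gr_le' (E := E) hc ha ω x (x + k)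
    have e2 := norm_GB_le (E := E) (c := c) ha B ω x (x + k)
    have e3 : ‖Gr (ee d) (HH d c) ω ⟨E, a⟩ x (x + k)‖ ≤ ‖GB E c a B ω x (x + k)‖ +
        ‖Gr (ee d) (HH d c) ω ⟨E, a⟩ x (x + k) - GB E c a B ω x (x + k)‖ := by
      have := norm_sub_norm_le (Gr (ee d) (HH d c) ω ⟨E, a⟩ x (x + k)) (GB E c a B ω x (x + k))
      linarith
    set p := ‖Gr (ee d) (HH d c) ω ⟨E, a⟩ x (x + k)‖
    set q := ‖GB E c a B ω x (x + k)‖
    set t := ‖Gr (ee d) (HH d c) ω ⟨E, a⟩ x (x + k) - GB E c a B ω x (x + k)‖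
    have hp : 0 ≤ p := norm_nonneg _
    have hq : 0 ≤ q := norm_nonneg _
    have ht : 0 ≤ t := norm_nonneg _
    have e4 : (p - q) * (p + q) ≤ t * (2 / a) := by
      have e5 : p + q ≤ 2 / a := by
        have : (2:ℝ) / a = 1 / a + 1 / a := by ring
        rw [this]; linarith
      rcases le_or_gt p q with h | h
      · have : (p - q) * (p + q) ≤ 0 := mul_nonpos_of_nonpos_of_nonneg (by linarith) (by linarith)
        have : 0 ≤ t * (2 / a) := by positivity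
        linarith
      · exact mul_le_mul (by linarith) e5 (by linarith) ht
    nlinarith
  calc _ ≤ ∑ x ∈ S, (‖GB E c a B ω x (x + k)‖ ^ 2 +
        (2 / a) * ‖Gr (ee d) (HH d c) ω ⟨E, a⟩ x (x + k) - GB E c a B ω x (x + k)‖) :=
        sum_le_sum h2
    _ = ∑ x ∈ S, ‖GB E c a B ω x (x + k)‖ ^ 2 + (2 / a) *
        ∑ x ∈ S, ‖Gr (ee d) (HH d c) ω ⟨E, a⟩ x (x + k) - GB E c a B ω x (x + k)‖ := by
        rw [sum_add_distrib, ← mul_sum]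
    _ ≤ ∑ x ∈ S, ‖GB E c a B ω x (x + k)‖ ^ 2 + (2 / a) * (W.card * (d * (2 / a ^ 2))) := by
        gcongr
    _ = _ := by
        have : (2 / a) * (W.card * (d * (2 / a ^ 2))) = (W.card : ℝ) * (4 * d / a ^ 3) := by
          field_simp
          ring
        rw [this]

/-- squared length -/
def sql (k : Fin d → ℤ) : ℝ := ∑ i, (k i : ℝ) ^ 2

theorem sql_nonneg (k : Fin d → ℤ) : 0 ≤ sql k := sum_nonneg fun _ _ => sq_nonneg _

theorem DU_box {E c a : ℝ} (B : Finset (Fin d → ℤ)) (ω : (Fin d → ℤ) → ℝ) :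
    DU (AB E B) (xi B) (uB c a B ω) =
      a ^ 2 * ∑ x ∈ B, ∑ y ∈ B, sql (y - x) * ‖GB E c a B ω x y‖ ^ 2 := by
  unfold DU AL.DD
  rw [mul_sum, ← Finset.sum_coe_sort B (fun x => a ^ 2 * ∑ y ∈ B, sql (y - x) * ‖GB E c a B ω x y‖ ^ 2)]
  refine sum_congr rfl fun x _ => ?_
  rw [mul_sum, ← Finset.sum_coe_sort B (fun y : Fin d → ℤ => a ^ 2 * (sql (y - (x : Fin d → ℤ)) *
    ‖GB E c a B ω (x : Fin d → ℤ) y‖ ^ 2))]
  refine sum_congr rfl fun y _ => ?_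
  rw [gam_uB, gam_uB, GB_coe]
  have : ff (xi B) x y = sql ((y : Fin d → ℤ) - (x : Fin d → ℤ)) := by
    unfold ff sql xi
    refine sum_congr rfl fun i _ => ?_
    rw [Pi.sub_apply]
    push_cast
    ring
  rw [this]
  ring

theorem sum_k_le {E c a : ℝ} (B : Finset (Fin d → ℤ)) (ω : (Fin d → ℤ) → ℝ)
    (F S : Finset (Fin d → ℤ)) (hS : ∀ k ∈ F, ∀ x ∈ S, x ∈ B ∧ x + k ∈ B) :
    ∑ k ∈ F, sql k * ∑ x ∈ S, ‖GB E c a B ω x (x + k)‖ ^ 2 ≤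
      ∑ x ∈ B, ∑ y ∈ B, sql (y - x) * ‖GB E c a B ω x y‖ ^ 2 := by
  rcases F.eq_empty_or_nonempty with hF | ⟨k0, hk0⟩
  · rw [hF, sum_empty]
    exact sum_nonneg fun x _ => sum_nonneg fun y _ => mul_nonneg (sql_nonneg _) (by positivity)
  have h1 : ∑ k ∈ F, sql k * ∑ x ∈ S, ‖GB E c a B ω x (x + k)‖ ^ 2 =
      ∑ x ∈ S, ∑ k ∈ F, sql k * ‖GB E c a B ω x (x + k)‖ ^ 2 := by
    rw [sum_comm]
    exact sum_congr rfl fun k _ => mul_sum _ _ _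
  rw [h1]
  have hSB : S ⊆ B := fun x hx => (hS k0 hk0 x hx).1
  refine le_trans ?_ (sum_le_sum_of_subset_of_nonneg hSB fun x _ _ =>
    sum_nonneg fun y _ => mul_nonneg (sql_nonneg _) (by positivity))
  refine sum_le_sum fun x hx => ?_
  have h2 : ∑ k ∈ F, sql k * ‖GB E c a B ω x (x + k)‖ ^ 2 =
      ∑ y ∈ F.map (Equiv.addLeft x).toEmbedding, sql (y - x) * ‖GB E c a B ω x y‖ ^ 2 := by
    rw [sum_map]
    refine sum_congr rfl fun k _ => ?_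
    simp
  rw [h2]
  refine sum_le_sum_of_subset_of_nonneg ?_ fun y _ _ => mul_nonneg (sql_nonneg _) (by positivity)
  intro y hy
  rw [mem_map] at hy
  obtain ⟨k, hk, rfl⟩ := hy
  exact (hS k hk x hx).2

/-- the deterministic comparison -/
theorem det_le {c a E : ℝ} (hc : 0 < c) (ha : 0 < a) {B W S F : Finset (Fin d → ℤ)}
    (hW : Outer B W) (ω : (Fin d → ℤ) → ℝ) (hS : ∀ k ∈ F, ∀ x ∈ S, x ∈ B ∧ x + k ∈ B) :
    ∑ k ∈ F, sql k * ∑ x ∈ S, ‖Gr (ee d) (HH d c) ω ⟨E, a⟩ x (x + k)‖ ^ 2 ≤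
      DU (AB E B) (xi B) (uB c a B ω) / a ^ 2
        + (∑ k ∈ F, sql k) * (W.card * (4 * d / a ^ 3)) := by
  have h1 : DU (AB E B) (xi B) (uB c a B ω) / a ^ 2 =
      ∑ x ∈ B, ∑ y ∈ B, sql (y - x) * ‖GB E c a B ω x y‖ ^ 2 := by
    rw [DU_box]
    field_simp
  rw [h1, sum_mul]
  refine le_trans ?_ (add_le_add (sum_k_le B ω F S hS) le_rfl)
  rw [← sum_add_distrib]
  refine sum_le_sum fun k hk => ?_
  rw [← mul_add]
  exact mul_le_mul_of_nonneg_left (sum_sq_le hc ha hW ω k (hS k hk)) (sql_nonneg k)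

end Pool.Agent.Lib.MP_562b47_mp.AS
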