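import Mathlib
import Pool.Agent.Lib.MP_562b47_mp.AS.Lim

/-!
MP_562b47, assembly: averages over the disorder and the limit of large boxes.
-/

open MeasureTheory Matrix Finset Filter Topology

set_option linter.unusedSectionVars false

namespace Pool.Agent.Lib.MP_562b47_mp.AS

open Pool.Agent.Lib.MP_562b47_mp.AL Pool.Agent.Lib.MP_562b47_mp
open scoped InnerProductSpace ENNReal

variable {d : ℕ}

/-- the potential `v - i a` of the box -/
noncomputable def uV {B : Finset (Fin d → ℤ)} (a : ℝ) (v : B → ℝ) (x : B) : ℂ :=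
  (v x : ℂ) - (a : ℂ) * Complex.I

/-- the averaged functional of the box -/
noncomputable def DB (c E a : ℝ) (B : Finset (Fin d → ℤ)) : ℝ :=
  ∫ v, DU (AB E B) (xi B) (uV a v) ∂(Measure.pi fun _ : B => unif c)

theorem measurable_DU_uV (E a : ℝ) (B : Finset (Fin d → ℤ)) :
    Measurable fun v : B → ℝ => DU (AB E B) (xi B) (uV a v) := by
  apply measurable_DU
  intro x
  unfold uV
  exact (Complex.measurable_ofReal.comp (measurable_pi_apply x)).sub measurable_const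

theorem ae_mem_PP {c : ℝ} (hc : 0 < c) (B : Finset (Fin d → ℤ)) :
    ∀ᵐ ω ∂(PP (Fin d → ℤ) c), ∀ x ∈ B, ω x ∈ Set.Icc (-c) c := by
  have := unif_prob hc
  rw [Filter.eventually_all_finset]
  intro x _
  have h1 : (PP (Fin d → ℤ) c).map (fun ω => ω x) = unif c := by
    unfold PP
    exact (measurePreserving_eval_infinitePi (fun _ : Fin d → ℤ => unif c) x).map_eq
  have h2 := ae_unif c
  rw [← h1] at h2
  exact ae_of_ae_map (measurable_pi_apply x).aemeasurable h2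

theorem DU_uB_ae {c E a : ℝ} (hc : 0 < c) (B : Finset (Fin d → ℤ)) :
    ∀ᵐ ω ∂(PP (Fin d → ℤ) c), DU (AB E B) (xi B) (uB c a B ω) =
      DU (AB E B) (xi B) (uV a (B.restrict ω)) := by
  filter_upwards [ae_mem_PP hc B] with ω hω
  congr 1
  funext x
  unfold uB uV
  rw [clp_of_mem (hω x x.2)]
  rfl

theorem integral_DU_uB {c E a : ℝ} (hc : 0 < c) (B : Finset (Fin d → ℤ)) :
    ∫ ω, DU (AB E B) (xi B) (uB c a B ω) ∂(PP (Fin d → ℤ) c) = DB c E a B := by
  have := unif_prob hc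
  rw [integral_congr_ae (DU_uB_ae hc B)]
  have h1 : (PP (Fin d → ℤ) c).map B.restrict = Measure.pi fun _ : B => unif c := by
    unfold PP
    exact Measure.infinitePi_map_restrict (fun _ : Fin d → ℤ => unif c)
  unfold DB
  rw [← h1, integral_map (by fun_prop) (measurable_DU_uV E a B).aestronglyMeasurable]

theorem DU_uB_le {c E a : ℝ} (ha : 0 < a) (B : Finset (Fin d → ℤ)) (ω : (Fin d → ℤ) → ℝ) :
    DU (AB E B) (xi B) (uB c a B ω) ≤ a ^ 2 * ∑ x ∈ B, ∑ y ∈ B, sql (y - x) * (1 / a) ^ 2 := by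
  rw [DU_box]
  gcongr with x hx y hy
  · exact sql_nonneg _
  · exact norm_GB_le ha B ω x y

theorem integrable_DU_uB {c E a : ℝ} (hc : 0 < c) (ha : 0 < a) (B : Finset (Fin d → ℤ)) :
    Integrable (fun ω => DU (AB E B) (xi B) (uB c a B ω)) (PP (Fin d → ℤ) c) := by
  have := PP_prob (Fin d → ℤ) hc
  refine Integrable.of_bound (C := a ^ 2 * ∑ x ∈ B, ∑ y ∈ B, sql (y - x) * (1 / a) ^ 2) ?_
    (ae_of_all _ fun ω => ?_)
  · apply Measurable.aestronglyMeasurable
    apply measurable_DU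
    intro x
    unfold uB
    exact (Complex.measurable_ofReal.comp ((continuous_clp c).measurable.comp
      (measurable_pi_apply _))).sub measurable_const
  · rw [Real.norm_of_nonneg]
    · exact DU_uB_le ha B ω
    · rw [DU_box]
      exact mul_nonneg (sq_nonneg _) (sum_nonneg fun x _ => sum_nonneg fun y _ =>
        mul_nonneg (sql_nonneg _) (sq_nonneg _))

theorem integrable_Gr_sq {c E a : ℝ} (hc : 0 < c) (ha : 0 < a) (x y : Fin d → ℤ) :
    Integrable (fun ω => ‖Gr (ee d) (HH d c) ω ⟨E, a⟩ x y‖ ^ 2) (PP (Fin d → ℤ) c) := by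
  have := PP_prob (Fin d → ℤ) hc
  have M := model (d := d) hc
  refine Integrable.of_bound (C := (1 / a) ^ 2) ?_ (ae_of_all _ fun ω => ?_)
  · exact ((M.continuous_Gr continuous_id continuous_const (fun _ => ha) x y).norm.pow
      2).aestronglyMeasurable
  · rw [Real.norm_of_nonneg (by positivity)]
    have := norm_Gr_le' (E := E) hc ha ω x y
    gcongr

/-- mean square of the Green function of the infinite lattice -/
noncomputable def gk (c E a : ℝ) (k : Fin d → ℤ) : ℝ :=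
  ∫ ω, ‖Gr (ee d) (HH d c) ω ⟨E, a⟩ 0 k‖ ^ 2 ∂(PP (Fin d → ℤ) c)

theorem gk_nonneg (c E a : ℝ) (k : Fin d → ℤ) : 0 ≤ gk c E a k :=
  integral_nonneg fun _ => by positivity

theorem integral_Gr_shift {c E a : ℝ} (hc : 0 < c) (ha : 0 < a) (x k : Fin d → ℤ) :
    ∫ ω, ‖Gr (ee d) (HH d c) ω ⟨E, a⟩ x (x + k)‖ ^ 2 ∂(PP (Fin d → ℤ) c) = gk c E a k := by
  have := unif_prob hc
  have M := model (d := d) hc
  have h1 := measurePreserving_shift (unif c) x
  have h2 : ∀ ω, ‖Gr (ee d) (HH d c) ω ⟨E, a⟩ x (x + k)‖ ^ 2 =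
      ‖Gr (ee d) (HH d c) (fun j => ω (j + x)) ⟨E, a⟩ 0 k‖ ^ 2 := by
    intro ω
    rw [shiftCov hc x ω ⟨E, a⟩ 0 k ha, zero_add, add_comm k x]
  simp_rw [h2]
  unfold gk
  have h3 : (PP (Fin d → ℤ) c).map (fun ω j => ω (j + x)) = PP (Fin d → ℤ) c := h1.map_eq
  conv_rhs => rw [← h3]
  rw [integral_map h1.measurable.aemeasurable]
  exact ((M.continuous_Gr continuous_id continuous_const (fun _ => ha) 0 k).norm.pow
      2).aestronglyMeasurable

/-- the averaged comparison -/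
theorem avg_le {c a E : ℝ} (hc : 0 < c) (ha : 0 < a) {B W S F : Finset (Fin d → ℤ)}
    (hW : Outer B W) (hS : ∀ k ∈ F, ∀ x ∈ S, x ∈ B ∧ x + k ∈ B) :
    S.card * ∑ k ∈ F, sql k * gk c E a k ≤ DB c E a B / a ^ 2
        + (∑ k ∈ F, sql k) * (W.card * (4 * d / a ^ 3)) := by
  have := PP_prob (Fin d → ℤ) hc
  have h1 : ∫ ω, (∑ k ∈ F, sql k * ∑ x ∈ S, ‖Gr (ee d) (HH d c) ω ⟨E, a⟩ x (x + k)‖ ^ 2)
      ∂(PP (Fin d → ℤ) c) = S.card * ∑ k ∈ F, sql k * gk c E a k := by
    rw [integral_finsetSum _ fun k _ => (integrable_finsetSum _ fun x _ =>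
      integrable_Gr_sq hc ha _ _).const_mul _, mul_sum]
    refine sum_congr rfl fun k _ => ?_
    rw [integral_const_mul, integral_finsetSum _ fun x _ => integrable_Gr_sq hc ha _ _]
    rw [sum_congr rfl fun x _ => integral_Gr_shift hc ha x k, sum_const, nsmul_eq_mul]
    ring
  have h2 : ∫ ω, (DU (AB E B) (xi B) (uB c a B ω) / a ^ 2
        + (∑ k ∈ F, sql k) * (W.card * (4 * d / a ^ 3))) ∂(PP (Fin d → ℤ) c) =
      DB c E a B / a ^ 2 + (∑ k ∈ F, sql k) * (W.card * (4 * d / a ^ 3)) := by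
    rw [integral_add ((integrable_DU_uB hc ha B).div_const _) (integrable_const _),
      integral_div, integral_DU_uB hc, integral_const, probReal_univ, one_smul]
  rw [← h1, ← h2]
  refine integral_mono_of_nonneg (ae_of_all _ fun ω => ?_) ?_ (ae_of_all _ fun ω => ?_)
  · exact sum_nonneg fun k _ => mul_nonneg (sql_nonneg _) (sum_nonneg fun x _ => sq_nonneg _)
  · exact ((integrable_DU_uB hc ha B).div_const _).add (integrable_const _)
  · exact det_le hc ha hW ω hS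

theorem mem_cube {R : ℕ} {x : Fin d → ℤ} : x ∈ cube d R ↔ ∀ i, -(R:ℤ) ≤ x i ∧ x i ≤ R := by
  unfold cube
  rw [Fintype.mem_piFinset]
  simp only [Finset.mem_Icc]

theorem uv_apply (i j : Fin d) : uv d i j = if j = i then 1 else 0 := by
  unfold uv
  rw [Pi.single_apply]

theorem outer_cube (N : ℕ) : Outer (cube d N) (cube d (N + 1) \ cube d N) := by
  refine ⟨disjoint_sdiff, fun j h1 h2 i => ?_⟩
  have h3 : j ∉ cube d (N + 1) := fun h => h2 (mem_sdiff.mpr ⟨h, h1⟩)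
  rw [mem_cube] at h3
  push Not at h3
  obtain ⟨l, hl⟩ := h3
  have hb := uv_apply i l
  constructor
  · intro h
    rw [mem_cube] at h
    have h4 := h l
    rw [Pi.add_apply, hb] at h4
    push_cast at hl
    split_ifs at h4 <;> omega
  · intro h
    rw [mem_cube] at h
    have h4 := h l
    rw [Pi.sub_apply, hb] at h4
    push_cast at hl
    split_ifs at h4 <;> omega

theorem cube_add {R n : ℕ} {k x : Fin d → ℤ} (hk : k ∈ cube d R) (hx : x ∈ cube d n) :
    x ∈ cube d (n + R) ∧ x + k ∈ cube d (n + R) := by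
  rw [mem_cube] at hk hx
  refine ⟨mem_cube.mpr fun i => ?_, mem_cube.mpr fun i => ?_⟩
  · have h1 := hk i
    have h2 := hx i
    push_cast
    constructor <;> omega
  · have h1 := hk i
    have h2 := hx i
    rw [Pi.add_apply]
    push_cast
    constructor <;> omega

theorem card_outer (N : ℕ) : ((cube d (N + 1) \ cube d N).card : ℝ) =
    (2 * (N:ℝ) + 3) ^ d - (2 * (N:ℝ) + 1) ^ d := by
  have h1 : cube d N ⊆ cube d (N + 1) := by
    intro x hx
    rw [mem_cube] at *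
    intro i
    have := hx i
    push_cast
    constructor <;> omega
  rw [Finset.cast_card_sdiff h1, card_cube, card_cube]
  push_cast
  ring

theorem tendsto_ratio (p q : ℝ) :
    Tendsto (fun n : ℕ => ((2 * (n:ℝ) + p) ^ d) / (2 * (n:ℝ) + q) ^ d) atTop (𝓝 1) := by
  have h1 : Tendsto (fun n : ℕ => (2 * (n:ℝ) + p) / (2 * (n:ℝ) + q)) atTop (𝓝 1) := by
    have h2 : Tendsto (fun n : ℕ => 1 + (p - q) * (2 * (n:ℝ) + q)⁻¹) atTop (𝓝 (1 + (p - q) * 0)) := by
      refine tendsto_const_nhds.add (tendsto_const_nhds.mul ?_)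
      apply tendsto_inv_atTop_zero.comp
      apply tendsto_atTop_add_const_right
      exact tendsto_natCast_atTop_atTop.const_mul_atTop (by norm_num)
    rw [mul_zero, add_zero] at h2
    refine h2.congr' ?_
    have h3 : ∀ᶠ n : ℕ in atTop, 0 < 2 * (n:ℝ) + q := by
      have : Tendsto (fun n : ℕ => 2 * (n:ℝ) + q) atTop atTop := by
        apply tendsto_atTop_add_const_right
        exact tendsto_natCast_atTop_atTop.const_mul_atTop (by norm_num)
      exact this.eventually_gt_atTop 0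
    filter_upwards [h3] with n hn
    field_simp
    ring
  have h4 := h1.pow d
  rw [one_pow] at h4
  simpa only [div_pow] using h4

/-- **From the boxes to the infinite lattice.** -/
theorem sum_gk_le {c a E K : ℝ} (hc : 0 < c) (ha : 0 < a)
    (h : ∀ᶠ N : ℕ in atTop, DB c E a (cube d N) ≤ K * (cube d N).card)
    (F : Finset (Fin d → ℤ)) : ∑ k ∈ F, sql k * gk c E a k ≤ K / a ^ 2 := by
  obtain ⟨R, hR⟩ : ∃ R : ℕ, F ⊆ cube d R := by
    refine ⟨∑ k ∈ F, ∑ i, (k i).natAbs, fun k hk => ?_⟩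
    rw [mem_cube]
    intro i
    have h1 : (k i).natAbs ≤ ∑ k ∈ F, ∑ i, (k i).natAbs :=
      (Finset.single_le_sum (f := fun i => (k i).natAbs) (fun _ _ => Nat.zero_le _)
        (mem_univ i)).trans (Finset.single_le_sum (f := fun k : Fin d → ℤ => ∑ i, (k i).natAbs)
          (fun _ _ => Nat.zero_le _) hk)
    omega
  set X := ∑ k ∈ F, sql k * gk c E a k with hX
  set s := ∑ k ∈ F, sql k with hs
  have h1 : ∀ᶠ n : ℕ in atTop, X ≤ K / a ^ 2 * ((2 * (n:ℝ) + (2 * R + 1)) ^ d / (2 * (n:ℝ) + 1) ^ d)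
      + s * (4 * d / a ^ 3) * ((2 * (n:ℝ) + (2 * R + 3)) ^ d / (2 * (n:ℝ) + 1) ^ d
        - (2 * (n:ℝ) + (2 * R + 1)) ^ d / (2 * (n:ℝ) + 1) ^ d) := by
    have h2 := (tendsto_add_atTop_nat R).eventually h
    filter_upwards [h2] with n hn
    have h3 := avg_le (E := E) (S := cube d n) (F := F) hc ha (outer_cube (d := d) (n + R))
      (fun k hk x hx => cube_add (hR hk) hx)
    rw [← hX, ← hs, card_outer] at h3
    have h4 : DB c E a (cube d (n + R)) / a ^ 2 ≤ K * (cube d (n + R)).card / a ^ 2 := by gcongr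
    rw [card_cube] at h3 h4
    have h5 : (0:ℝ) < (2 * (n:ℝ) + 1) ^ d := by positivity
    have h6 : X ≤ (K * (2 * ((n + R : ℕ) : ℝ) + 1) ^ d / a ^ 2 + s *
        (((2 * ((n + R : ℕ) : ℝ) + 3) ^ d - (2 * ((n + R : ℕ) : ℝ) + 1) ^ d) * (4 * d / a ^ 3)))
        / (2 * (n:ℝ) + 1) ^ d := by
      rw [le_div_iff₀ h5]
      push_cast at h3 h4 ⊢
      nlinarith
    refine h6.trans (le_of_eq ?_)
    push_cast
    have e1 : 2 * ((n:ℝ) + R) + 1 = 2 * (n:ℝ) + (2 * R + 1) := by ring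
    have e2 : 2 * ((n:ℝ) + R) + 3 = 2 * (n:ℝ) + (2 * R + 3) := by ring
    rw [e1, e2]
    field_simp
  have h7 : Tendsto (fun n : ℕ => K / a ^ 2 *
      ((2 * (n:ℝ) + (2 * R + 1)) ^ d / (2 * (n:ℝ) + 1) ^ d)
      + s * (4 * d / a ^ 3) * ((2 * (n:ℝ) + (2 * R + 3)) ^ d / (2 * (n:ℝ) + 1) ^ d
        - (2 * (n:ℝ) + (2 * R + 1)) ^ d / (2 * (n:ℝ) + 1) ^ d)) atTop
      (𝓝 (K / a ^ 2 * 1 + s * (4 * d / a ^ 3) * (1 - 1))) :=
    ((tendsto_ratio _ _).const_mul _).add (((tendsto_ratio _ _).sub (tendsto_ratio _ _)).const_mul _)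
  have h8 := ge_of_tendsto h7 h1
  linarith

/-- **Upper bound for `E ∑_x |x|² |G(0,x)|²` from a bound in large boxes.** -/
theorem DE_le {c a E K : ℝ} (hc : 0 < c) (ha : 0 < a)
    (h : ∀ᶠ N : ℕ in atTop, DB c E a (cube d N) ≤ K * (cube d N).card) :
    QL.DE d c ⟨E, a⟩ ≤ ENNReal.ofReal (K / a ^ 2) := by
  have := PP_prob (Fin d → ℤ) hc
  have M := model (d := d) hc
  unfold QL.DE
  have hm : ∀ x : Fin d → ℤ, Measurable fun ω : (Fin d → ℤ) → ℝ =>
      ‖Gr (ee d) (HH d c) ω ⟨E, a⟩ 0 x‖ₑ ^ 2 := fun x =>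
    ((M.continuous_Gr continuous_id continuous_const (fun _ => ha) 0 x).enorm.measurable).pow_const 2
  rw [lintegral_tsum fun x => ((hm x).const_mul _).aemeasurable]
  refine ENNReal.summable.tsum_le_of_sum_le fun F => ?_
  have h1 : ∀ x ∈ F, ∫⁻ ω, ENNReal.ofReal (∑ i, (x i : ℝ) ^ 2)
      * ‖Gr (ee d) (HH d c) ω ⟨E, a⟩ 0 x‖ₑ ^ 2 ∂(PP (Fin d → ℤ) c) =
      ENNReal.ofReal (sql x * gk c E a x) := by
    intro x _
    rw [lintegral_const_mul _ (hm x), ENNReal.ofReal_mul (sql_nonneg x)]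
    congr 1
    unfold gk
    rw [ofReal_integral_eq_lintegral_ofReal (integrable_Gr_sq hc ha _ _)
      (ae_of_all _ fun _ => by positivity)]
    refine lintegral_congr fun ω => ?_
    rw [ENNReal.ofReal_pow (norm_nonneg _), ofReal_norm]
  rw [sum_congr rfl h1, ← ENNReal.ofReal_sum_of_nonneg fun x _ =>
    mul_nonneg (sql_nonneg _) (gk_nonneg _ _ _ _)]
  exact ENNReal.ofReal_le_ofReal (sum_gk_le hc ha h F)

end Pool.Agent.Lib.MP_562b47_mp.AS
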