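import Mathlib
import Pool.Agent.Lib.MP_562b47_mp.WO.Thin
import Pool.Agent.Lib.MP_562b47_mp.WO.Lower

/-!
MP_562b47, assembly: the recursion over the classes for one box.
-/

open MeasureTheory Matrix Finset

set_option linter.unusedSectionVars false

namespace Pool.Agent.Lib.MP_562b47_mp.WO

open Pool.Agent.Lib.MP_562b47_mp.AL Pool.Agent.Lib.MP_562b47_mp

variable {ι 𝔅 κ' : Type*} [Fintype ι] [DecidableEq ι] [Fintype 𝔅] [DecidableEq 𝔅] [Fintype κ']

namespace Sys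

variable (S : Sys ι 𝔅) {A : Matrix ι ι ℝ}

/-- LOWERING THE BACKGROUND to any level -/
theorem lower_to (hS : Good S A) (ξ : κ' → ι → ℝ) (m : ℕ) (K Z K2 e0 : ℝ) (hK : 0 < K) (hZ : 0 ≤ Z)
    (he0 : 0 ≤ e0) {a1 a2 : ℝ} (ha1 : 0 < a1) (hlt : a1 ≤ a2)
    (h : ∀ a, a1 < a → a < a2 →
      S.Ex A (S.pim m 0) (fun Ac V => -S.dDw A ξ m a Ac V) ≤
        (Z * a ^ (-(7 / 8) : ℝ) + K2 * a⁻¹ + e0) * (S.Dw A ξ m 0 a + K)) :
    S.Dw A ξ m 0 a1 + K ≤ (S.Dw A ξ m 0 a2 + K) *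
      Real.exp (8 * Z * a2 ^ (1 / 8 : ℝ) + K2 * Real.log (a2 / a1) + e0 * a2) := by
  have hem : 0 < a2 := lt_of_lt_of_le ha1 hlt
  set D : ℝ → ℝ := fun a => S.Dw A ξ m 0 a with hD
  set Φ : ℝ → ℝ := fun a => 8 * Z * a ^ (1 / 8 : ℝ) + K2 * (Real.log a - Real.log a1) +
    e0 * a with hΦ
  have hder : ∀ a, 0 < a → HasDerivAt D (S.Ex A (S.pim m 0) (S.dDw A ξ m a)) a := fun a ha =>
    S.hasDerivAt_Dw hS ξ m (le_refl 0) zero_le_one ha
  have hΦd : ∀ a, 0 < a → HasDerivAt Φ (Z * a ^ (-(7 / 8) : ℝ) + K2 * a⁻¹ + e0) a := by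
    intro a ha
    have h1 := (Real.hasDerivAt_rpow_const (x := a) (p := 1 / 8) (Or.inl ha.ne')).const_mul (8 * Z)
    have h3 := ((Real.hasDerivAt_log ha.ne').sub_const (Real.log a1)).const_mul K2
    have h2 := (hasDerivAt_id a).const_mul e0
    refine ((h1.add h3).add h2).congr_deriv ?_
    have : (1 / 8 : ℝ) - 1 = -(7 / 8) := by norm_num
    rw [this]
    ring
  have hneg : ∀ a, S.Ex A (S.pim m 0) (fun Ac V => -S.dDw A ξ m a Ac V) =
      -S.Ex A (S.pim m 0) (S.dDw A ξ m a) := by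
    intro a
    have := S.Ex_mul (A := A) (p := S.pim m 0) (-1) (S.dDw A ξ m a)
    simpa using this
  have hmono : MonotoneOn (fun a => (D a + K) * Real.exp (Φ a)) (Set.Icc a1 a2) := by
    apply monotoneOn_of_deriv_nonneg (convex_Icc _ _)
    · intro a ha
      have ha0 : 0 < a := lt_of_lt_of_le ha1 ha.1
      exact (((hder a ha0).add_const K).mul (hΦd a ha0).exp).continuousAt.continuousWithinAt
    · intro a ha
      rw [interior_Icc] at ha
      have ha0 : 0 < a := lt_trans ha1 ha.1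
      exact (((hder a ha0).add_const K).mul (hΦd a ha0).exp).differentiableAt.differentiableWithinAt
    · intro a ha
      rw [interior_Icc] at ha
      have ha0 : 0 < a := lt_trans ha1 ha.1
      rw [(((hder a ha0).add_const K).fun_mul (hΦd a ha0).exp).deriv]
      have h1 := h a ha.1 ha.2
      rw [hneg] at h1
      have e1 : S.Ex A (S.pim m 0) (S.dDw A ξ m a) * Real.exp (Φ a) +
          (D a + K) * (Real.exp (Φ a) * (Z * a ^ (-(7 / 8) : ℝ) + K2 * a⁻¹ + e0)) =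
          Real.exp (Φ a) * (S.Ex A (S.pim m 0) (S.dDw A ξ m a) +
            (Z * a ^ (-(7 / 8) : ℝ) + K2 * a⁻¹ + e0) * (D a + K)) := by ring
      rw [e1]
      refine mul_nonneg (Real.exp_pos _).le ?_
      have h2 : D a = S.Dw A ξ m 0 a := rfl
      rw [h2]
      linarith
  have h1 := hmono ⟨le_refl _, hlt⟩ ⟨hlt, le_refl _⟩ hlt
  simp only at h1
  have h2 : 1 ≤ Real.exp (Φ a1) := by
    rw [Real.one_le_exp_iff]
    simp only [hΦ, sub_self, mul_zero, add_zero]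
    have := Real.rpow_nonneg ha1.le (1 / 8 : ℝ)
    positivity
  have h3 : 0 ≤ D a1 + K := by
    have := S.Dw_nonneg (A := A) hS ξ m (le_refl 0) zero_le_one ha1
    simp only [hD]
    linarith
  have h4 : Φ a2 = 8 * Z * a2 ^ (1 / 8 : ℝ) + K2 * Real.log (a2 / a1) + e0 * a2 := by
    simp only [hΦ]
    rw [Real.log_div hem.ne' ha1.ne']
  calc S.Dw A ξ m 0 a1 + K = (D a1 + K) * 1 := by simp only [hD, mul_one]
    _ ≤ (D a1 + K) * Real.exp (Φ a1) := mul_le_mul_of_nonneg_left h2 h3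
    _ ≤ (D a2 + K) * Real.exp (Φ a2) := h1
    _ = _ := by rw [h4]

/-- in the last world there is nothing but the background -/
theorem Dw_top (A : Matrix ι ι ℝ) (ξ : κ' → ι → ℝ) {M : ℕ} (hM : ∀ b, S.cls b ≤ M) (a : ℝ) :
    S.Dw A ξ M 0 a = ∫ V, DU A ξ (fun x => (V x : ℂ) - (a : ℂ) * Complex.I) ∂(S.mu) := by
  have hp : ∀ b, S.pim M 0 b = 0 := by
    intro b
    unfold pim
    have := hM b
    split_ifs with h1 h2
    · rfl
    · rfl
    · omega
  have hw1 : ∀ V, S.wt A (S.pim M 0) V ∅ = 1 := by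
    intro V
    unfold wt
    simp only [hp, zero_mul, prod_empty, sub_zero, prod_const_one, mul_one]
  have hw2 : ∀ V, ∀ Ac : Finset 𝔅, Ac ≠ ∅ → S.wt A (S.pim M 0) V Ac = 0 := by
    intro V Ac hne
    obtain ⟨b, hb⟩ := Finset.nonempty_iff_ne_empty.mpr hne
    unfold wt
    rw [Finset.prod_eq_zero hb (by rw [hp b, zero_mul]), zero_mul]
  have hu : ∀ V, S.uA A M a ∅ V = fun x => (V x : ℂ) - (a : ℂ) * Complex.I := by
    intro V
    funext x
    have hf : (S.Comp V).filter (fun b => M < S.cls b) = ∅ := by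
      rw [Finset.filter_eq_empty_iff]
      intro b _
      have := hM b
      omega
    unfold uA bk
    rw [hf, sum_empty, sum_empty, add_zero, add_zero]
  unfold Dw Ex
  refine integral_congr_ae (Filter.Eventually.of_forall fun V => ?_)
  show ∑ Ac ∈ (S.Comp V).powerset, S.wt A (S.pim M 0) V Ac * DU A ξ (S.uA A M a Ac V) = _
  rw [Finset.sum_eq_single ∅]
  · rw [hw1 V, one_mul, hu V]
  · intro Ac _ hne
    rw [hw2 V Ac hne, zero_mul]
  · intro h
    exact absurd (Finset.empty_mem_powerset _) h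

/-- THE RECURSION over the classes `0, ..., M`, for one box -/
theorem chain (ξ : κ' → ι → ℝ) (M : ℕ) (K D0 : ℝ) (hK : 0 < K) (hD0 : 0 ≤ D0)
    (x y : ℕ → ℝ) (X a : ℝ)
    (h0 : S.Dw A ξ 0 1 (S.et 0) ≤ D0 * K)
    (hx : ∀ m ≤ M, S.Dw A ξ m 0 (S.et m) + K ≤ (S.Dw A ξ m 1 (S.et m) + K) * Real.exp (x m))
    (hy : ∀ m < M, S.Dw A ξ (m + 1) 1 (S.et (m + 1)) + K ≤
      (S.Dw A ξ m 0 (S.et m) + K) * Real.exp (y m))
    (hf : S.Dw A ξ M 0 a + K ≤ (S.Dw A ξ M 0 (S.et M) + K) * Real.exp (y M))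
    (hX : ∑ m ∈ range (M + 1), (x m + y m) ≤ X) :
    S.Dw A ξ M 0 a ≤ (D0 + 1) * Real.exp X * K := by
  have h1 : ∀ m ≤ M, S.Dw A ξ m 1 (S.et m) + K ≤
      (D0 + 1) * K * Real.exp (∑ j ∈ range m, (x j + y j)) := by
    intro m
    induction m with
    | zero =>
      intro _
      rw [range_zero, sum_empty, Real.exp_zero]
      linarith
    | succ m ih =>
      intro hm
      have e1 := ih (by omega)
      have e2 := hx m (by omega)
      have e3 := hy m (by omega)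
      rw [sum_range_succ, Real.exp_add, Real.exp_add]
      calc _ ≤ (S.Dw A ξ m 0 (S.et m) + K) * Real.exp (y m) := e3
        _ ≤ (S.Dw A ξ m 1 (S.et m) + K) * Real.exp (x m) * Real.exp (y m) :=
            mul_le_mul_of_nonneg_right e2 (Real.exp_pos _).le
        _ ≤ ((D0 + 1) * K * Real.exp (∑ j ∈ range m, (x j + y j))) * Real.exp (x m)
            * Real.exp (y m) :=
            mul_le_mul_of_nonneg_right (mul_le_mul_of_nonneg_right e1 (Real.exp_pos _).le)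
              (Real.exp_pos _).le
        _ = _ := by ring
  have e1 := h1 M le_rfl
  have e2 := hx M le_rfl
  rw [sum_range_succ] at hX
  have e4 : S.Dw A ξ M 0 a + K ≤
      (D0 + 1) * K * Real.exp ((∑ j ∈ range M, (x j + y j)) + (x M + y M)) := by
    rw [Real.exp_add, Real.exp_add]
    calc _ ≤ (S.Dw A ξ M 0 (S.et M) + K) * Real.exp (y M) := hf
      _ ≤ (S.Dw A ξ M 1 (S.et M) + K) * Real.exp (x M) * Real.exp (y M) :=
          mul_le_mul_of_nonneg_right e2 (Real.exp_pos _).le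
      _ ≤ ((D0 + 1) * K * Real.exp (∑ j ∈ range M, (x j + y j))) * Real.exp (x M)
          * Real.exp (y M) :=
          mul_le_mul_of_nonneg_right (mul_le_mul_of_nonneg_right e1 (Real.exp_pos _).le)
            (Real.exp_pos _).le
      _ = _ := by ring
  have e5 : (D0 + 1) * K * Real.exp ((∑ j ∈ range M, (x j + y j)) + (x M + y M)) ≤
      (D0 + 1) * K * Real.exp X :=
    mul_le_mul_of_nonneg_left (Real.exp_le_exp.mpr hX) (by positivity)
  calc S.Dw A ξ M 0 a ≤ S.Dw A ξ M 0 a + K := by linarith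
    _ ≤ _ := e4
    _ ≤ _ := e5
    _ = _ := by ring

/-- **THE RECURSION for one box**, with the thinning and the lowering inserted -/
theorem chain_full (hS : Good S A) (ξ : κ' → ι → ℝ) (M : ℕ) (hM : ∀ b, S.cls b ≤ M)
    (hι : 0 < Fintype.card ι) (D0 : ℝ) (hD0 : 0 ≤ D0)
    (e ε dm Z K2 e0 : ℕ → ℝ) (he : ∀ m, 0 ≤ e m) (hε : ∀ m, 0 < ε m) (hZ : ∀ m, 0 ≤ Z m)
    (hK2 : ∀ m, 0 ≤ K2 m) (he0 : ∀ m, 0 ≤ e0 m) (hdec : ∀ m, S.et (m + 1) ≤ S.et m)
    (h0 : S.Dw A ξ 0 1 (S.et 0) ≤ D0 * Fintype.card ι)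
    (hE : ∀ m ≤ M, EC.EHyp S A ξ m (S.et m) (dm m))
    (hLB : ∀ m ≤ M, ∀ t, 0 < t → t ≤ 1 → S.Ex A (S.pim m t) (S.ers A ξ m (S.et m)) ≤
      e m * (S.Dw A ξ m t (S.et m) + Fintype.card ι))
    (hR : ∀ m ≤ M, ∀ a, S.et (m + 1) < a → a < S.et m →
      S.Ex A (S.pim m 0) (fun Ac V => -S.dDw A ξ m a Ac V) ≤
        (Z m * a ^ (-(7 / 8) : ℝ) + K2 m * a⁻¹ + e0 m) *
          (S.Dw A ξ m 0 a + Fintype.card ι))
    (X : ℝ) (hX : ∑ m ∈ range (M + 1), ((e m * Real.log (1 + 17600 * EC.Lc S m (S.et m) (dm m) / ε m)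
        + ε m) + (8 * Z m * S.et m ^ (1 / 8 : ℝ) + K2 m * Real.log (S.et m / S.et (m + 1)) +
        e0 m * S.et m)) ≤ X)
    {a : ℝ} (ha1 : S.et (M + 1) ≤ a) (ha2 : a ≤ S.et M) :
    ∫ V, DU A ξ (fun x => (V x : ℂ) - (a : ℂ) * Complex.I) ∂(S.mu) ≤
      (D0 + 1) * Real.exp X * Fintype.card ι := by
  have hK : (0 : ℝ) < Fintype.card ι := by exact_mod_cast hι
  have ha : 0 < a := lt_of_lt_of_le (S.et_pos _) ha1
  rw [← S.Dw_top A ξ hM a]
  refine S.chain ξ M _ D0 hK hD0 _ _ X a h0 (fun m hm => ?_) (fun m hm => ?_) ?_ hX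
  · exact S.thin_eps hS ξ m (hE m hm) (S.et_pos m) hι (e m) (ε m) (he m) (hε m) (hLB m hm)
  · exact S.lower hS ξ m _ (Z m) (K2 m) (e0 m) hK (hZ m) (hK2 m) (he0 m) (hdec m) (hR m hm.le)
  · have h1 := S.lower_to hS ξ M _ (Z M) (K2 M) (e0 M) hK (hZ M) (he0 M) ha ha2
      (fun a' h1 h2 => hR M le_rfl a' (lt_of_le_of_lt ha1 h1) h2)
    refine h1.trans (mul_le_mul_of_nonneg_left (Real.exp_le_exp.mpr ?_) ?_)
    · have h2 : Real.log (S.et M / a) ≤ Real.log (S.et M / S.et (M + 1)) := by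
        apply Real.log_le_log (div_pos (S.et_pos _) ha)
        exact div_le_div_of_nonneg_left (S.et_pos _).le (S.et_pos _) ha1
      have h3 := mul_le_mul_of_nonneg_left h2 (hK2 M)
      linarith
    · have := S.Dw_nonneg (A := A) hS ξ M (le_refl 0) zero_le_one (S.et_pos M)
      linarith

end Sys

end Pool.Agent.Lib.MP_562b47_mp.WO
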